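import Mathlib
import Pool.Agent.H532R2.DT.Hyb

/-!
# Tree tensor networks have few parameters with respect to small blocks of variables
-/

set_option autoImplicit false

namespace Pool.Agent.H964R5

open MvPolynomial Pool.Agent.H532R2.DT

/-- Networks of bond dimension `k` in `n` variables; every network computes a vector of `k`
polynomials. `const c` computes the constant vector `c`. `layer A M a` multiplies the vector
computed by `a` by the matrix `M` of polynomials in the variables of the set `A` of at most `c`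
variables. `node B a b` applies the bilinear map `B` to the vectors computed by `a` and `b`.
`gate G a b` applies the polynomial map `G` to them. -/
inductive Net (F : Type*) [Field F] (n k c : ℕ) where
  | const (x : Fin k → F) : Net F n k c
  | layer (A : Finset (Fin n)) (hA : A.card ≤ c) (M : Fin k → Fin k → MvPolynomial (Fin n) F)
      (hM : ∀ j u, M j u ∈ supported F (A : Set (Fin n))) (a : Net F n k c) : Net F n k c
  | node (B : Fin k → Fin k → Fin k → F) (a b : Net F n k c) : Net F n k c
  | gate (G : Fin k → MvPolynomial (Fin k ⊕ Fin k) F) (a b : Net F n k c) : Net F n k c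

variable {F : Type*} [Field F] {n k c : ℕ}

/-- The vector computed by a network. -/
noncomputable def Net.val : Net F n k c → Fin k → MvPolynomial (Fin n) F
  | .const x => fun j => C (x j)
  | .layer _ _ M _ a => fun j => ∑ u, M j u * a.val u
  | .node B a b => fun j => ∑ u, ∑ v, C (B j u v) * (a.val u * b.val v)
  | .gate G a b => fun j => aeval (Sum.elim a.val b.val) (G j)

/-- The number of pairs of a layer and a variable of its set. -/
def Net.size : Net F n k c → ℕ
  | .const _ => 0
  | .layer A _ _ _ a => a.size + A.card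
  | .node _ a b => a.size + b.size
  | .gate _ a b => a.size + b.size

/-- The number of polynomial gates. -/
def Net.gates : Net F n k c → ℕ
  | .const _ => 0
  | .layer _ _ _ _ a => a.gates
  | .node _ a b => a.gates + b.gates
  | .gate _ a b => a.gates + b.gates + 1

/-- The number of layers whose set contains the variable. -/
def Net.occ : Net F n k c → Fin n → ℕ
  | .const _ => 0
  | .layer A _ _ _ a => a.occ + fun i => if i ∈ A then 1 else 0
  | .node _ a b => a.occ + b.occ
  | .gate _ a b => a.occ + b.occ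

theorem Net.sum_occ (N : Net F n k c) : ∑ i, N.occ i = N.size := by
  induction N with
  | const x => simp [Net.occ, Net.size]
  | layer A hA M hM a ih =>
    simp only [Net.occ, Net.size, Pi.add_apply, Finset.sum_add_distrib, ih]
    simp
  | node B a b iha ihb =>
    simp only [Net.occ, Net.size, Pi.add_apply, Finset.sum_add_distrib, iha, ihb]
  | gate G a b iha ihb =>
    simp only [Net.occ, Net.size, Pi.add_apply, Finset.sum_add_distrib, iha, ihb]

theorem aeval_mem {A : Type*} [CommRing A] [Algebra F A] (B : Subalgebra F A) {ι : Type*}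
    (f : ι → A) (hf : ∀ j, f j ∈ B) (P : MvPolynomial ι F) : aeval f P ∈ B := by
  induction P using MvPolynomial.induction_on with
  | C r =>
    rw [algHom_C]
    exact Subalgebra.algebraMap_mem _ _
  | add p q hp hq =>
    rw [map_add]
    exact Subalgebra.add_mem _ hp hq
  | mul_X p j hp =>
    rw [map_mul, aeval_X]
    exact Subalgebra.mul_mem _ hp (hf j)

theorem Net.supp (N : Net F n k c) (j : Fin k) : N.val j ∈ supported F {i | N.occ i ≠ 0} := by
  induction N generalizing j with
  | const x => exact Subalgebra.algebraMap_mem _ _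
  | layer A hA M hM a ih =>
    refine Subalgebra.sum_mem _ fun u _ => Subalgebra.mul_mem _ ?_ ?_
    · refine supported_mono ?_ (hM j u)
      intro x hx
      simp only [Net.occ, Set.mem_ofPred_eq, Pi.add_apply]
      rw [if_pos (Finset.mem_coe.1 hx)]
      omega
    · refine supported_mono ?_ (ih u)
      intro x hx
      simp only [Net.occ, Set.mem_ofPred_eq, Pi.add_apply] at hx ⊢
      omega
  | node B a b iha ihb =>
    refine Subalgebra.sum_mem _ fun u _ => Subalgebra.sum_mem _ fun v _ =>
      Subalgebra.mul_mem _ (Subalgebra.algebraMap_mem _ _) (Subalgebra.mul_mem _ ?_ ?_)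
    · refine supported_mono ?_ (iha u)
      intro x hx
      simp only [Net.occ, Set.mem_ofPred_eq, Pi.add_apply] at hx ⊢
      omega
    · refine supported_mono ?_ (ihb v)
      intro x hx
      simp only [Net.occ, Set.mem_ofPred_eq, Pi.add_apply] at hx ⊢
      omega
  | gate G a b iha ihb =>
    refine aeval_mem _ _ ?_ _
    rintro (u | u)
    · refine supported_mono ?_ (iha u)
      intro x hx
      simp only [Net.occ, Set.mem_ofPred_eq, Pi.add_apply] at hx ⊢
      omega
    · refine supported_mono ?_ (ihb u)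
      intro x hx
      simp only [Net.occ, Set.mem_ofPred_eq, Pi.add_apply] at hx ⊢
      omega

section par

variable {S : Type*} [CommRing S] [Algebra F S]

theorem algebraMap_mem_Kc (D : Derivation F S S) (r : F) :
    algebraMap F (MvPolynomial (Fin n) S) r ∈ Kc n D := by
  rw [MvPolynomial.algebraMap_apply]
  exact C_mem_Kc (D.map_algebraMap r)

theorem mvEval_mem_Kc (D : Derivation F S S) {ι : Type*} (f : ι → MvPolynomial (Fin n) S)
    (hf : ∀ j, f j ∈ Kc n D) (P : MvPolynomial ι F) : aeval f P ∈ Kc n D := by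
  induction P using MvPolynomial.induction_on with
  | C r =>
    rw [algHom_C]
    exact algebraMap_mem_Kc D r
  | add p q hp hq =>
    rw [map_add]
    exact Subring.add_mem _ hp hq
  | mul_X p j hp =>
    rw [map_mul, aeval_X]
    exact Subring.mul_mem _ hp (hf j)

theorem rho_mem_Kc (D : Derivation F S S)
    (ρ : MvPolynomial (Fin n) F →ₐ[F] MvPolynomial (Fin n) S) {A : Set (Fin n)}
    (h : ∀ i ∈ A, ρ (X i) ∈ Kc n D) {p : MvPolynomial (Fin n) F} (hp : p ∈ supported F A) :
    ρ p ∈ Kc n D := by
  have hp' : p ∈ Algebra.adjoin F (X '' A : Set (MvPolynomial (Fin n) F)) := hp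
  induction hp' using Algebra.adjoin_induction with
  | mem y hy =>
    obtain ⟨i, hi, rfl⟩ := hy
    exact h i hi
  | algebraMap r =>
    rw [AlgHom.commutes]
    exact algebraMap_mem_Kc D r
  | add y z _ _ hy hz =>
    rw [map_add]
    exact Subring.add_mem _ (hy ‹_›) (hz ‹_›)
  | mul y z _ _ hy hz =>
    rw [map_mul]
    exact Subring.mul_mem _ (hy ‹_›) (hz ‹_›)

theorem rho_const (s : Fin n → S)
    (ρ : MvPolynomial (Fin n) F →ₐ[F] MvPolynomial (Fin n) S) {A : Set (Fin n)}
    (h : ∀ i ∈ A, ρ (X i) = C (s i)) {p : MvPolynomial (Fin n) F} (hp : p ∈ supported F A) :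
    ρ p = C (aeval s p) := by
  have hp' : p ∈ Algebra.adjoin F (X '' A : Set (MvPolynomial (Fin n) F)) := hp
  induction hp' using Algebra.adjoin_induction with
  | mem y hy =>
    obtain ⟨i, hi, rfl⟩ := hy
    rw [h i hi, aeval_X]
  | algebraMap r =>
    rw [AlgHom.commutes, AlgHom.commutes, MvPolynomial.algebraMap_apply]
  | add y z _ _ hy hz => rw [map_add, map_add, hy ‹_›, hz ‹_›, C_add]
  | mul y z _ _ hy hz => rw [map_mul, map_mul, hy ‹_›, hz ‹_›, C_mul]

/-- Compressed form of a vector: constant, or a constant matrix applied to a vector with few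
parameters. -/
def CmpV (F : Type*) [Field F] {S : Type*} [CommRing S] [Algebra F S] {n k : ℕ} (c r : ℕ)
    (f : Fin k → MvPolynomial (Fin n) S) : Prop :=
  (∃ x : Fin k → S, ∀ j, f j = C (x j)) ∨
  (1 ≤ r ∧ ∃ (M : Fin k → Fin k → S) (g : Fin k → MvPolynomial (Fin n) S) (T : Finset S),
    T.card + 2 * k ^ 2 ≤ (3 * k ^ 2 + c) * r ∧
    (∀ D : Derivation F S S, (∀ x ∈ T, D x = 0) → ∀ j, g j ∈ Kc n D) ∧
    ∀ j, f j = ∑ u, C (M j u) * g u)

theorem CmpV.mono {r r' : ℕ} {f : Fin k → MvPolynomial (Fin n) S} (h : CmpV F c r f)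
    (hr : r ≤ r') : CmpV F c r' f := by
  rcases h with h | ⟨h1, M, g, T, h2, h3, h4⟩
  · exact Or.inl h
  · exact Or.inr ⟨h1.trans hr, M, g, T, h2.trans (Nat.mul_le_mul_left _ hr), h3, h4⟩

theorem CmpV.matrix {r : ℕ} {f : Fin k → MvPolynomial (Fin n) S} (h : CmpV F c r f)
    (A : Fin k → Fin k → S) : CmpV F c r (fun j => ∑ u, C (A j u) * f u) := by
  rcases h with ⟨x, h⟩ | ⟨h1, M, g, T, h2, h3, h4⟩
  · refine Or.inl ⟨fun j => ∑ u, A j u * x u, fun j => ?_⟩
    simp only [h, map_sum, C_mul]
  · refine Or.inr ⟨h1, fun j v => ∑ u, A j u * M u v, g, T, h2, h3, fun j => ?_⟩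
    simp only [h4, map_sum, C_mul, Finset.mul_sum, Finset.sum_mul]
    rw [Finset.sum_comm]
    exact Finset.sum_congr rfl fun v _ => Finset.sum_congr rfl fun u _ => by ring

/-- A set of parameters for a compressed vector. -/
theorem CmpV.params {r : ℕ} {f : Fin k → MvPolynomial (Fin n) S} (h : CmpV F c r f) :
    ∃ T : Finset S, (r = 0 → T.card ≤ k) ∧ (1 ≤ r → T.card + k ^ 2 ≤ (3 * k ^ 2 + c) * r) ∧
      ∀ D : Derivation F S S, (∀ x ∈ T, D x = 0) → ∀ j, f j ∈ Kc n D := by
  classical
  have hkk : k ≤ k ^ 2 := Nat.le_self_pow (by norm_num) k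
  rcases h with ⟨x, h⟩ | ⟨h1, M, g, T, h2, h3, h4⟩
  · have hc : (Finset.univ.image x).card ≤ k := Finset.card_image_le.trans (by simp)
    refine ⟨Finset.univ.image x, fun _ => hc, fun hr => ?_, fun D hD j => ?_⟩
    · have h5 : (3 * k ^ 2 + c) * 1 ≤ (3 * k ^ 2 + c) * r := Nat.mul_le_mul_left _ hr
      omega
    · rw [h]
      exact C_mem_Kc (hD _ (Finset.mem_image_of_mem _ (Finset.mem_univ _)))
  · refine ⟨T ∪ (Finset.univ : Finset (Fin k × Fin k)).image (fun x => M x.1 x.2), fun hr => ?_,
      fun _ => ?_, fun D hD j => ?_⟩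
    · omega
    · have h5 := Finset.card_union_le T
        ((Finset.univ : Finset (Fin k × Fin k)).image (fun x => M x.1 x.2))
      have h6 : ((Finset.univ : Finset (Fin k × Fin k)).image (fun x => M x.1 x.2)).card ≤
          k ^ 2 := Finset.card_image_le.trans (by simp [sq])
      omega
    · rw [h4]
      refine Subring.sum_mem _ fun u _ => Subring.mul_mem _ (C_mem_Kc (hD _ ?_))
        (h3 D (fun x hx => hD x (Finset.mem_union_left _ hx)) u)
      exact Finset.mem_union_right _ (Finset.mem_image.2 ⟨(j, u), Finset.mem_univ _, rfl⟩)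

/-- A vector with few parameters. -/
theorem CmpV.of_params {r : ℕ} {f : Fin k → MvPolynomial (Fin n) S} (hr : 1 ≤ r) (T : Finset S)
    (hT : T.card + 2 * k ^ 2 ≤ (3 * k ^ 2 + c) * r)
    (h : ∀ D : Derivation F S S, (∀ x ∈ T, D x = 0) → ∀ j, f j ∈ Kc n D) : CmpV F c r f := by
  classical
  refine Or.inr ⟨hr, fun j u => if j = u then 1 else 0, f, T, hT, h, fun j => ?_⟩
  rw [Finset.sum_eq_single j]
  · simp
  · intro u _ hu
    simp [Ne.symm hu]
  · intro hj
    exact absurd (Finset.mem_univ _) hj

theorem Net.cmp (V : Finset (Fin n)) (s : Fin n → S)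
    (ρ : MvPolynomial (Fin n) F →ₐ[F] MvPolynomial (Fin n) S) (h1 : ∀ j ∈ V, ρ (X j) = X j)
    (h2 : ∀ j ∉ V, ρ (X j) = C (s j)) (N : Net F n k c) :
    CmpV F c (∑ i ∈ V, N.occ i + N.gates) (fun j => ρ (N.val j)) := by
  classical
  have hkk : k ≤ k ^ 2 := Nat.le_self_pow (by norm_num) k
  induction N with
  | const x =>
    refine Or.inl ⟨fun j => algebraMap F S (x j), fun j => ?_⟩
    simp only [Net.val]
    rw [algHom_C, MvPolynomial.algebraMap_apply]
  | layer A hA M hM a ih =>
    have e1 : ∀ j, ρ ((Net.layer A hA M hM a).val j) = ∑ u, ρ (M j u) * ρ (a.val u) := by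
      intro j
      simp only [Net.val, map_sum, map_mul]
    by_cases hV : ∃ i ∈ A, i ∈ V
    · obtain ⟨i, hiA, hiV⟩ := hV
      have hocc : ∑ x ∈ V, a.occ x + a.gates + 1 ≤
          ∑ x ∈ V, (Net.layer A hA M hM a).occ x + (Net.layer A hA M hM a).gates := by
        simp only [Net.occ, Net.gates, Pi.add_apply, Finset.sum_add_distrib]
        have : 1 ≤ ∑ x ∈ V, if x ∈ A then 1 else 0 := by
          refine le_trans ?_ (Finset.single_le_sum (f := fun x => if x ∈ A then 1 else 0)
            (fun _ _ => Nat.zero_le _) hiV)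
          simp [hiA]
        omega
      refine CmpV.mono ?_ hocc
      obtain ⟨T, hT0, hT1, hT⟩ := ih.params
      have hcard := Finset.card_union_le T ((A \ V).image s)
      have hcard2 : ((A \ V).image s).card ≤ c :=
        Finset.card_image_le.trans ((Finset.card_le_card Finset.sdiff_subset).trans hA)
      refine CmpV.of_params (by omega) (T ∪ (A \ V).image s) ?_ ?_
      · have h3 : (3 * k ^ 2 + c) * (∑ x ∈ V, a.occ x + a.gates + 1) =
            (3 * k ^ 2 + c) * (∑ x ∈ V, a.occ x + a.gates) + (3 * k ^ 2 + c) := by ring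
        rcases Nat.eq_zero_or_pos (∑ x ∈ V, a.occ x + a.gates) with h0 | h0
        · have := hT0 h0
          omega
        · have := hT1 h0
          omega
      · intro D hD j
        simp only [e1]
        refine Subring.sum_mem _ fun u _ => Subring.mul_mem _ ?_
          (hT D (fun x hx => hD x (Finset.mem_union_left _ hx)) u)
        refine rho_mem_Kc D ρ ?_ (hM j u)
        intro i' hi'
        by_cases hiV' : i' ∈ V
        · rw [h1 i' hiV']
          exact X_mem_Kc D i'
        · rw [h2 i' hiV']
          refine C_mem_Kc (hD _ (Finset.mem_union_right _ (Finset.mem_image_of_mem _ ?_)))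
          exact Finset.mem_sdiff.2 ⟨hi', hiV'⟩
    · push Not at hV
      have hocc : ∑ x ∈ V, a.occ x + a.gates ≤
          ∑ x ∈ V, (Net.layer A hA M hM a).occ x + (Net.layer A hA M hM a).gates := by
        simp only [Net.occ, Net.gates, Pi.add_apply, Finset.sum_add_distrib]
        omega
      refine CmpV.mono ?_ hocc
      have h3 := ih.matrix (fun j u => aeval s (M j u))
      have e2 : (fun j => ρ ((Net.layer A hA M hM a).val j)) =
          fun j => ∑ u, C (aeval s (M j u)) * ρ (a.val u) := by
        funext j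
        rw [e1]
        refine Finset.sum_congr rfl fun u _ => ?_
        rw [rho_const s ρ (fun i hi => h2 i (hV i hi)) (hM j u)]
      rw [e2]
      exact h3
  | node B a b iha ihb =>
    have hocc : ∑ x ∈ V, (Net.node B a b).occ x + (Net.node B a b).gates =
        (∑ x ∈ V, a.occ x + a.gates) + (∑ x ∈ V, b.occ x + b.gates) := by
      simp only [Net.occ, Net.gates, Pi.add_apply, Finset.sum_add_distrib]
      ring
    have e1 : ∀ j, ρ ((Net.node B a b).val j) =
        ∑ u, ∑ v, algebraMap F (MvPolynomial (Fin n) S) (B j u v) *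
          (ρ (a.val u) * ρ (b.val v)) := by
      intro j
      simp only [Net.val, map_sum, map_mul]
      refine Finset.sum_congr rfl fun u _ => Finset.sum_congr rfl fun v _ => ?_
      rw [algHom_C]
    rw [hocc]
    have ha := iha
    have hb := ihb
    rcases ha with ⟨x, hc⟩ | ⟨ha1, -⟩
    · -- the first argument is constant
      have h3 := ihb.matrix (fun j v => ∑ u, algebraMap F S (B j u v) * x u)
      have e2 : (fun j => ρ ((Net.node B a b).val j)) =
          fun j => ∑ v, C (∑ u, algebraMap F S (B j u v) * x u) * ρ (b.val v) := by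
        funext j
        rw [e1, Finset.sum_comm]
        refine Finset.sum_congr rfl fun v _ => ?_
        rw [map_sum, Finset.sum_mul]
        refine Finset.sum_congr rfl fun u _ => ?_
        have h4 : ρ (a.val u) = C (x u) := hc u
        rw [h4, C_mul, MvPolynomial.algebraMap_apply]
        ring
      rw [e2]
      exact h3.mono (Nat.le_add_left _ _)
    · rcases hb with ⟨x, hc⟩ | ⟨hb1, -⟩
      · have h3 := iha.matrix (fun j u => ∑ v, algebraMap F S (B j u v) * x v)
        have e2 : (fun j => ρ ((Net.node B a b).val j)) =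
            fun j => ∑ u, C (∑ v, algebraMap F S (B j u v) * x v) * ρ (a.val u) := by
          funext j
          rw [e1]
          refine Finset.sum_congr rfl fun u _ => ?_
          rw [map_sum, Finset.sum_mul]
          refine Finset.sum_congr rfl fun v _ => ?_
          have h4 : ρ (b.val v) = C (x v) := hc v
          rw [h4, C_mul, MvPolynomial.algebraMap_apply]
          ring
        rw [e2]
        exact h3.mono (Nat.le_add_right _ _)
      · obtain ⟨T, -, hT1, hT⟩ := iha.params
        obtain ⟨T', -, hT1', hT'⟩ := ihb.params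
        refine CmpV.of_params (by omega) (T ∪ T') ?_ ?_
        · have h3 := hT1 ha1
          have h4 := hT1' hb1
          have h5 := Finset.card_union_le T T'
          have h6 : (3 * k ^ 2 + c) * ((∑ x ∈ V, a.occ x + a.gates) +
              (∑ x ∈ V, b.occ x + b.gates)) = (3 * k ^ 2 + c) * (∑ x ∈ V, a.occ x + a.gates) +
              (3 * k ^ 2 + c) * (∑ x ∈ V, b.occ x + b.gates) := by ring
          omega
        · intro D hD j
          simp only [e1]
          refine Subring.sum_mem _ fun u _ => Subring.sum_mem _ fun v _ => Subring.mul_mem _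
            (algebraMap_mem_Kc D _) (Subring.mul_mem _
              (hT D (fun x hx => hD x (Finset.mem_union_left _ hx)) u)
              (hT' D (fun x hx => hD x (Finset.mem_union_right _ hx)) v))
  | gate G a b iha ihb =>
    have hocc : ∑ x ∈ V, (Net.gate G a b).occ x + (Net.gate G a b).gates =
        (∑ x ∈ V, a.occ x + a.gates) + (∑ x ∈ V, b.occ x + b.gates) + 1 := by
      simp only [Net.occ, Net.gates, Pi.add_apply, Finset.sum_add_distrib]
      ring
    rw [hocc]
    have e1 : ∀ j, ρ ((Net.gate G a b).val j) =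
        aeval (fun x => ρ (Sum.elim a.val b.val x)) (G j) := by
      intro j
      simp only [Net.val]
      rw [← AlgHom.comp_apply, comp_aeval]
    by_cases h00 : (∑ x ∈ V, a.occ x + a.gates) = 0 ∧ (∑ x ∈ V, b.occ x + b.gates) = 0
    · rcases iha with ⟨x, hx⟩ | ⟨ha, -⟩
      swap
      · omega
      rcases ihb with ⟨y, hy⟩ | ⟨hb, -⟩
      swap
      · omega
      refine Or.inl ⟨fun j => aeval (Sum.elim x y) (G j), fun j => ?_⟩
      simp only [e1]
      have e2 : (fun x => ρ (Sum.elim a.val b.val x)) =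
          fun z => (IsScalarTower.toAlgHom F S (MvPolynomial (Fin n) S)) (Sum.elim x y z) := by
        funext z
        rcases z with u | u
        · exact hx u
        · exact hy u
      rw [e2, ← MvPolynomial.comp_aeval_apply]
      rfl
    obtain ⟨T, hT0, hT1, hT⟩ := iha.params
    obtain ⟨T', hT0', hT1', hT'⟩ := ihb.params
    refine CmpV.of_params (by omega) (T ∪ T') ?_ ?_
    · have h5 := Finset.card_union_le T T'
      have h6 : (3 * k ^ 2 + c) * ((∑ x ∈ V, a.occ x + a.gates) +
          (∑ x ∈ V, b.occ x + b.gates) + 1) = (3 * k ^ 2 + c) * (∑ x ∈ V, a.occ x + a.gates) +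
          (3 * k ^ 2 + c) * (∑ x ∈ V, b.occ x + b.gates) + (3 * k ^ 2 + c) := by ring
      rcases Nat.eq_zero_or_pos (∑ x ∈ V, a.occ x + a.gates) with h0 | h0
      · have h7 := hT0 h0
        rcases Nat.eq_zero_or_pos (∑ x ∈ V, b.occ x + b.gates) with h0' | h0'
        · exact absurd ⟨h0, h0'⟩ h00
        · have h8 := hT1' h0'
          omega
      · have h7 := hT1 h0
        rcases Nat.eq_zero_or_pos (∑ x ∈ V, b.occ x + b.gates) with h0' | h0'
        · have h8 := hT0' h0'
          omega
        · have h8 := hT1' h0'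
          omega
    · intro D hD j
      simp only [e1]
      refine mvEval_mem_Kc D _ ?_ _
      rintro (u | u)
      · exact hT D (fun x hx => hD x (Finset.mem_union_left _ hx)) u
      · exact hT' D (fun x hx => hD x (Finset.mem_union_right _ hx)) u

/-- Polynomials in the entries of the vector computed by a network have few parameters with
respect to small blocks. -/
theorem Net.hasPar (N : Net F n k c) (P : MvPolynomial (Fin k) F) (R : ℕ) :
    HasPar N.occ R ((3 * k ^ 2 + c) * (R + N.gates) + k) (aeval N.val P) S := by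
  classical
  intro V hV s ρ h1 h2
  have hkk : k ≤ k ^ 2 := Nat.le_self_pow (by norm_num) k
  have h3 := (N.cmp V s ρ h1 h2).mono (Nat.add_le_add_right hV _)
  obtain ⟨T, hT0, hT1, hT⟩ := h3.params
  refine ⟨T, ?_, fun D hD => ?_⟩
  · rcases Nat.eq_zero_or_pos (R + N.gates) with h0 | h0
    · have := hT0 h0
      omega
    · have := hT1 h0
      omega
  · have h4 : ρ (aeval N.val P) = aeval (fun j => ρ (N.val j)) P := by
      rw [← AlgHom.comp_apply, comp_aeval]
    rw [h4]
    exact mvEval_mem_Kc D _ (hT D hD) P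

end par

/-- The number of seeds. -/
def len (k c h r : ℕ) : ℕ := 2 * (3 * k ^ 2 + c + 1) * (r + h)

open Pool.Agent.H530R2 in
/-- Nonvanishing of a factor at an integer point (adapted from `exists_seeds3`). -/
theorem exists_seeds_dvd [CharZero F] {w : Fin n → ℕ} {f g : MvPolynomial (Fin n) F}
    (hfg : f ∣ g) (hsupp : g ∈ supported F {i | w i ≠ 0}) (s r q ℓ d : ℕ)
    (hs : ∑ i, w i ≤ s) (hr : 1 ≤ r)
    (h : HasPar w (2 * (r - 1)) q g (MvPolynomial (Fin n ⊕ (Fin ℓ ⊕ Fin (s / r + 1))) F))
    (hℓ : q + 2 * (r - 1) ≤ ℓ) (hdeg : f.totalDegree ≤ d) (hg : g ≠ 0) :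
    ∃ (H : Finset (Fin n)) (bl : Fin n → Fin (s / r + 1)), H.card ≤ s / r ∧ Monotone bl ∧
      ∃ (v : Fin n → ℕ) (y : Fin ℓ → ℕ) (u : Fin (s / r + 1) → ℕ),
        (∀ i, v i ≤ d) ∧ (∀ k, y k ≤ d) ∧ (∀ c, u c ≤ n * ℓ * d) ∧
        MvPolynomial.eval (fun i => if i ∈ H then (v i : F) else
          ∑ k : Fin ℓ, (y k : F) * (u (bl i) : F) ^ (((i : ℕ) + 1) * (k : ℕ))) f ≠ 0 := by
  classical
  obtain ⟨H, bl, hH, hbl, hcap⟩ := exists_plan w s r hs hr
  refine ⟨H, bl, hH, hbl, ?_⟩
  have hneg := hyb_final3 (ℓ := ℓ) hsupp H bl (2 * (r - 1)) q hcap h hℓ hg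
  have hne : aeval (hybv F ℓ H bl (s / r + 1)) f ≠ 0 := by
    intro h0
    apply hneg
    obtain ⟨x, rfl⟩ := hfg
    rw [map_mul, h0, zero_mul]
  by_contra hcon
  push Not at hcon
  apply hne
  apply MvPolynomial.eq_zero_of_eval_zero_at_prod_finset _
    (Sum.elim (fun _ : Fin n => (Finset.range (d + 1)).image (fun k : ℕ => (k : F)))
      (Sum.elim (fun _ : Fin ℓ => (Finset.range (d + 1)).image (fun k : ℕ => (k : F)))
        (fun _ : Fin (s / r + 1) =>
          (Finset.range (n * ℓ * d + 1)).image (fun k : ℕ => (k : F)))))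
  · rintro (l | l | l)
    · rw [Sum.elim_inl, Finset.card_image_of_injective _ Nat.cast_injective, Finset.card_range]
      exact Nat.lt_succ_of_le ((hyb_degreeOf_inl H bl _ l f).trans hdeg)
    · rw [Sum.elim_inr, Sum.elim_inl, Finset.card_image_of_injective _ Nat.cast_injective,
        Finset.card_range]
      exact Nat.lt_succ_of_le ((hyb_degreeOf_y H bl _ l f).trans hdeg)
    · rw [Sum.elim_inr, Sum.elim_inr, Finset.card_image_of_injective _ Nat.cast_injective,
        Finset.card_range]
      exact Nat.lt_succ_of_le ((hyb_degreeOf_u H bl _ l f).trans (Nat.mul_le_mul_left _ hdeg))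
  · intro x hx
    have hv : ∀ l : Fin n, ∃ k ∈ Finset.range (d + 1), ((k : ℕ) : F) = x (Sum.inl l) := by
      intro l
      have := hx (Sum.inl l)
      rw [Sum.elim_inl, Finset.mem_image] at this
      exact this
    have hy : ∀ l : Fin ℓ, ∃ k ∈ Finset.range (d + 1),
        ((k : ℕ) : F) = x (Sum.inr (Sum.inl l)) := by
      intro l
      have := hx (Sum.inr (Sum.inl l))
      rw [Sum.elim_inr, Sum.elim_inl, Finset.mem_image] at this
      exact this
    have hu : ∀ l : Fin (s / r + 1), ∃ k ∈ Finset.range (n * ℓ * d + 1),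
        ((k : ℕ) : F) = x (Sum.inr (Sum.inr l)) := by
      intro l
      have := hx (Sum.inr (Sum.inr l))
      rw [Sum.elim_inr, Sum.elim_inr, Finset.mem_image] at this
      exact this
    choose v hv1 hv2 using hv
    choose y hy1 hy2 using hy
    choose u hu1 hu2 using hu
    have h1 := hcon v y u (fun i => Nat.lt_succ_iff.1 (Finset.mem_range.1 (hv1 i)))
      (fun i => Nat.lt_succ_iff.1 (Finset.mem_range.1 (hy1 i)))
      (fun i => Nat.lt_succ_iff.1 (Finset.mem_range.1 (hu1 i)))
    rw [← h1, ← MvPolynomial.coe_aeval_eq_eval, RingHom.coe_coe, ← AlgHom.comp_apply,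
      MvPolynomial.comp_aeval, ← MvPolynomial.coe_aeval_eq_eval, RingHom.coe_coe]
    congr 2
    funext i
    have h2 : ¬ (s / r + 1 ≤ (bl i).val) := by
      have := (bl i).isLt
      omega
    unfold hybv
    by_cases hi : i ∈ H
    · rw [if_pos (Or.inl hi), if_pos hi, aeval_X, hv2]
    · rw [if_neg (by push Not; exact ⟨hi, (bl i).isLt⟩), if_neg hi, map_sum]
      apply Finset.sum_congr rfl
      intro k _
      rw [map_mul, map_pow, aeval_X, aeval_X, hy2, hu2]

/-- A nonvanishing point for factors of polynomials in the entries of the vector computed by a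
network. -/
theorem net_seeds [CharZero F] (N : Net F n k c) (P : MvPolynomial (Fin k) F)
    {f : MvPolynomial (Fin n) F} (hf : f ∣ aeval N.val P) (s h d r : ℕ)
    (hs : N.size ≤ s) (hh : N.gates ≤ h) (hr : 1 ≤ r) (hd : f.totalDegree ≤ d)
    (h0 : aeval N.val P ≠ 0) :
    ∃ (H : Finset (Fin n)) (bl : Fin n → Fin (s / r + 1)), H.card ≤ s / r ∧ Monotone bl ∧
      ∃ (v : Fin n → ℕ) (y : Fin (len k c h r) → ℕ) (u : Fin (s / r + 1) → ℕ),
        (∀ i, v i ≤ d) ∧ (∀ k, y k ≤ d) ∧ (∀ b, u b ≤ n * len k c h r * d) ∧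
        MvPolynomial.eval (fun i => if i ∈ H then (v i : F) else
          ∑ l : Fin (len k c h r), (y l : F) * (u (bl i) : F) ^ (((i : ℕ) + 1) * (l : ℕ)))
          f ≠ 0 := by
  have hk2 : k ≤ k ^ 2 := Nat.le_self_pow (by norm_num) k
  refine exists_seeds_dvd hf (aeval_mem _ _ N.supp P) s r
    ((3 * k ^ 2 + c) * (2 * (r - 1) + N.gates) + k) (len k c h r) d
    (by rw [N.sum_occ]; exact hs) hr (N.hasPar P _) ?_ hd h0
  obtain ⟨r', rfl⟩ : ∃ r', r = r' + 1 := ⟨r - 1, by omega⟩
  have e1 : r' + 1 - 1 = r' := by omega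
  rw [e1, len]
  have e3 : (3 * k ^ 2 + c) * (2 * r' + N.gates) ≤ (3 * k ^ 2 + c) * (2 * r' + h) :=
    Nat.mul_le_mul_left _ (by omega)
  have e2 : (3 * k ^ 2 + c) * (2 * r' + h) + k + 2 * r' ≤
      2 * (3 * k ^ 2 + c + 1) * (r' + 1 + h) := by
    have e4 : 2 * (3 * k ^ 2 + c + 1) * (r' + 1 + h) = (3 * k ^ 2 + c) * (2 * r' + h) + 2 * r' +
        (3 * k ^ 2 + c) * h + 2 * h + 2 * (3 * k ^ 2 + c + 1) := by ring
    rw [e4]
    have e5 : k ≤ 2 * (3 * k ^ 2 + c + 1) := by omega
    omega
  omega

end Pool.Agent.H964R5
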